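import Pool.Agent.H176.DT.Stm

/-!
Library Y815.DT (helper815), task DT-FIN of the project H176.DT: from strong uniformization to log
uniformization.
-/

set_option autoImplicit false
set_option linter.unusedVariables false
set_option linter.unusedSectionVars false

universe u

namespace Pool.Agent.Y815.DT

open Pool.Agent.W418.LU2 Pool.Agent.H176.DT IsLocalRing

theorem fin : S_fin.{u} := by
  classical
  intro F _ V A _ hAV hSU D I₀ hD hI₀
  obtain ⟨SD, hSD⟩ := (IsNoetherian.noetherian D : D.FG)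
  obtain ⟨SI, hSI⟩ := (IsNoetherian.noetherian I₀ : I₀.FG)
  have hSD' : D = Ideal.span (SD : Set A) := hSD.symm
  have hSI' : I₀ = Ideal.span (SI : Set A) := hSI.symm
  obtain ⟨d₀, hd₀S, hd₀0, hd₀⟩ := exists_gen V hAV (S := (SD : Set A)) SD.finite_toSet
    (by rw [← hSD']; exact hD)
  obtain ⟨f₀, hf₀S, hf₀0, hf₀⟩ := exists_gen V hAV (S := (SI : Set A)) SI.finite_toSet
    (by rw [← hSI']; exact hI₀)
  rw [← hSD'] at hd₀
  rw [← hSI'] at hf₀
  have hd₀0' : (d₀ : F) ≠ 0 := fun h => hd₀0 (Subtype.ext h)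
  have hf₀0' : (f₀ : F) ≠ 0 := fun h => hf₀0 (Subtype.ext h)
  -- the finite set
  set G : Set F := (((fun a : A => (a : F) / (d₀ : F)) '' ((SD : Set A) \ {0})) ∪
    ((fun a : A => (a : F) / (f₀ : F)) '' ((SI : Set A) \ {0}))) ∪ {(d₀ : F), (f₀ : F)} with hG
  obtain ⟨T, n, x, hSt, hGm⟩ := hSU G
    (((((SD.finite_toSet).sdiff).image _).union (((SI.finite_toSet).sdiff).image _)).union
      (Set.toFinite _)) (by
      rintro g ((⟨a, ⟨_, ha⟩, rfl⟩ | ⟨a, ⟨_, ha⟩, rfl⟩) | hg)
      · exact div_ne_zero (fun h => ha (Subtype.ext h)) hd₀0'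
      · exact div_ne_zero (fun h => ha (Subtype.ext h)) hf₀0'
      · rcases hg with rfl | rfl
        · exact hd₀0'
        · exact hf₀0')
  set B := Subring.closure ((A : Set F) ∪ T) with hB
  set P := lo V.toSubring B with hP
  have hreg : RegP V.toSubring P x := hSt.reg
  obtain ⟨β, hβA, hβm, hTβ, hxβ⟩ := hSt.den
  have hβm' : PMon P x β := hβm
  have hβ0 : β ≠ 0 := by
    obtain ⟨u, u0, -, -, δ, rfl⟩ := hβm'
    exact mul_ne_zero u0 (mo_ne_zero hreg.ne δ)
  have hBP : B ≤ P := le_lo _ _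
  have hPV : P ≤ V.toSubring := hreg.PA
  have hBV : B ≤ V.toSubring := hBP.trans hPV
  have hAP : A ≤ P := fun a ha => hBP (Subring.subset_closure (Or.inl ha))
  have hTP : ∀ t ∈ T, t ∈ P := fun t ht => hBP (Subring.subset_closure (Or.inr ht))
  have hDP : ∀ a ∈ D, (a : F) / (d₀ : F) ∈ P := by
    intro a ha
    rw [hSD'] at ha
    induction ha using Submodule.span_induction with
    | mem a ha =>
      by_cases h0 : a = 0
      · rw [h0]; simp
      · refine (hGm _ (Or.inl (Or.inl ⟨a, ⟨ha, h0⟩, rfl⟩))).2 (hd₀ a ?_)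
        rw [hSD']
        exact Ideal.subset_span ha
    | zero => simp
    | add a b _ _ ha hb =>
      have h1 : ((a + b : A) : F) / (d₀ : F) = (a : F) / (d₀ : F) + (b : F) / (d₀ : F) :=
        add_div _ _ _
      rw [h1]
      exact P.add_mem ha hb
    | smul c a _ ha =>
      have h1 : ((c • a : A) : F) / (d₀ : F) = (c : F) * ((a : F) / (d₀ : F)) :=
        mul_div_assoc _ _ _
      rw [h1]
      exact P.mul_mem (hAP c.2) ha
  have hIP : ∀ a ∈ I₀, (a : F) / (f₀ : F) ∈ P := by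
    intro a ha
    rw [hSI'] at ha
    induction ha using Submodule.span_induction with
    | mem a ha =>
      by_cases h0 : a = 0
      · rw [h0]; simp
      · refine (hGm _ (Or.inl (Or.inr ⟨a, ⟨ha, h0⟩, rfl⟩))).2 (hf₀ a ?_)
        rw [hSI']
        exact Ideal.subset_span ha
    | zero => simp
    | add a b _ _ ha hb =>
      have h1 : ((a + b : A) : F) / (f₀ : F) = (a : F) / (f₀ : F) + (b : F) / (f₀ : F) :=
        add_div _ _ _
      rw [h1]
      exact P.add_mem ha hb
    | smul c a _ ha =>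
      have h1 : ((c • a : A) : F) / (f₀ : F) = (c : F) * ((a : F) / (f₀ : F)) :=
        mul_div_assoc _ _ _
      rw [h1]
      exact P.mul_mem (hAP c.2) ha
  -- the centre
  let S₁ : Set A := {a | (a : F) = β ∨ ∃ t ∈ T, (a : F) = t * β}
  have hβS : (⟨β, hβA⟩ : A) ∈ S₁ := Or.inl rfl
  have hf₀I : f₀ ∈ I₀ := by rw [hSI']; exact Ideal.subset_span hf₀S
  have hd₀D : d₀ ∈ D := by rw [hSD']; exact Ideal.subset_span hd₀S
  have hI₁P : ∀ a ∈ Ideal.span S₁, (a : F) / β ∈ P := by
    intro a ha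
    induction ha using Submodule.span_induction with
    | mem a ha =>
      rcases ha with h | ⟨t, ht, h⟩
      · rw [h, div_self hβ0]; exact P.one_mem
      · rw [h, mul_div_assoc, div_self hβ0, mul_one]; exact hTP t ht
    | zero => simp
    | add a b _ _ ha hb =>
      have h1 : ((a + b : A) : F) / β = (a : F) / β + (b : F) / β := add_div _ _ _
      rw [h1]
      exact P.add_mem ha hb
    | smul c a _ ha =>
      have h1 : ((c • a : A) : F) / β = (c : F) * ((a : F) / β) := mul_div_assoc _ _ _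
      rw [h1]
      exact P.mul_mem (hAP c.2) ha
  have hIIP : ∀ a ∈ I₀ * Ideal.span S₁, (a : F) / ((f₀ : F) * β) ∈ P := by
    intro a ha
    refine Submodule.mul_induction_on ha ?_ ?_
    · intro b hb c hc
      have h3 : ((b * c : A) : F) / ((f₀ : F) * β) = (b : F) / (f₀ : F) * ((c : F) / β) := by
        change (b : F) * (c : F) / ((f₀ : F) * β) = _
        field_simp
      change ((b * c : A) : F) / ((f₀ : F) * β) ∈ _
      rw [h3]
      exact P.mul_mem (hIP b hb) (hI₁P c hc)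
    · intro b c hb hc
      have h3 : ((b + c : A) : F) / ((f₀ : F) * β) = (b : F) / ((f₀ : F) * β) +
          (c : F) / ((f₀ : F) * β) := add_div _ _ _
      rw [h3]
      exact P.add_mem hb hc
  let ff : A := f₀ * ⟨β, hβA⟩
  have hffc : (ff : F) = (f₀ : F) * β := rfl
  have hff : ff ∈ I₀ * Ideal.span S₁ := Ideal.mul_mem_mul hf₀I (Ideal.subset_span hβS)
  have hff0 : ff ≠ 0 := fun h => mul_ne_zero hf₀0' hβ0 (congrArg Subtype.val h)
  have hchP : chart A (I₀ * Ideal.span S₁) ff ≤ P := by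
    unfold chart
    rw [Subring.closure_le]
    rintro z (hz | ⟨a, ha, rfl⟩)
    · exact hAP hz
    · rw [hffc]
      exact hIIP a ha
  have hmem : ∀ z : F, (h : z * β ∈ A) → (⟨z * β, h⟩ : A) ∈ S₁ →
      z ∈ chart A (I₀ * Ideal.span S₁) ff := by
    intro z h hz
    refine Subring.subset_closure (Or.inr ⟨f₀ * ⟨z * β, h⟩, Ideal.mul_mem_mul hf₀I
      (Ideal.subset_span hz), ?_⟩)
    rw [hffc]
    change z = (f₀ : F) * (z * β) / ((f₀ : F) * β)
    field_simp
  have hBch : B ≤ chart A (I₀ * Ideal.span S₁) ff := by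
    rw [hB, Subring.closure_le]
    rintro z (hz | hz)
    · exact Subring.subset_closure (Or.inl hz)
    · exact hmem z (by rw [mul_comm]; exact hTβ z hz) (Or.inr ⟨z, hz, rfl⟩)
  refine ⟨Ideal.span S₁, ?_, ?_⟩
  · intro h
    rw [Ideal.span_eq_bot] at h
    exact hβ0 (congrArg Subtype.val (h _ hβS))
  refine logDesing_of hff hff0 (fun a ha => ?_) hd₀D hd₀0 (P := P) ?_ hreg hDP ?_
  · rw [hffc]
    exact hPV (hIIP a ha)
  · exact lo_eq hBV hBch hchP
  · rw [hffc]
    exact (hGm _ (Or.inr (Or.inl rfl))).1.mul hreg.ne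
      ((hGm _ (Or.inr (Or.inr rfl))).1.mul hreg.ne hβm')

end Pool.Agent.Y815.DT
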